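import Pool.Agent.Helper87.GJ.Exact
import Pool.Agent.Helper46.GJ.Ctb

/-!
# GJ: the exact dimension
-/

set_option autoImplicit false
open MeasureTheory Set Filter Topology
open Pool.Agent.Helper18.GP (gp nm)
open Pool.Agent.Helper59.MF (HasLaw HasJoint)

namespace Pool.Agent.GJ

/-- Let `1 < a < b` and let `g > 0` be a trigonometric polynomial of degree at most `H` with mean one and coefficients `c k`,
`∑ |c k| < a ^ (kJ a H)`. The set of the `x` in `(a, b)` for which `x ^ (n + 1) + s n` has the law `g(t) dt` modulo one has the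
dimension `1 - (∫ g log g) / log b`, and so has the subset of those for which the terms behave like independent random variables
with this law. -/
theorem dim_J {a b : ℝ} (ha : 1 < a) (hab : a < b) {H : ℕ} (hH : 1 ≤ H) {c : ℤ → ℂ} {g : ℝ → ℝ}
    (hg : ∀ t, gp H c t = g t) (hc : c 0 = 1) (hg0 : ∀ t, 0 < g t) (hW : nm H c < a ^ (kJ a H)) (s : ℕ → ℝ) :
    dimH {x : ℝ | x ∈ Ioo a b ∧ HasLaw (fun n => x ^ (n + 1) + s n) g} =
        ENNReal.ofReal (1 - (∫ t in (0 : ℝ)..1, g t * Real.log (g t)) / Real.log b) ∧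
      dimH {x : ℝ | x ∈ Ioo a b ∧ HasJoint (fun n => x ^ (n + 1) + s n) g} =
        ENNReal.ofReal (1 - (∫ t in (0 : ℝ)..1, g t * Real.log (g t)) / Real.log b) :=
  dim_J_of ha hab hH (fun r => Pool.Agent.Helper46.GJ.ctb ha b hH r) hg hc hg0 hW s

end Pool.Agent.GJ
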