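import Pool.Agent.Helper87.GE.Defs
import Pool.Agent.Helper59.MF.Defs

/-!
# GJ (exact laws, joint version): definitions

As GE, for the joint laws of consecutive terms. `h : ℕ → ℤ` is a window of characters (`h i = 0` for `i ≥ r`). The power series
which occur have integer coefficients; all coefficients larger than `H` lie in a window of length `r`. The zeros of order larger
than `KJ a H` of such series form a countable set.
-/

set_option autoImplicit false
open MeasureTheory Set Filter Topology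
open Pool.Agent.Helper18.GP (KK gp nm)
open Pool.Agent.Helper87.GP (Z fz cut)

namespace Pool.Agent.GJ

/-- integer sequences whose terms larger than `H` lie in a window of length `r` -/
def Fs (H r : ℕ) : Set (ℕ → ℤ) := {c | c 0 ≠ 0 ∧ (∀ j, |c j| ≤ H + r) ∧ ∀ i j, i + r ≤ j → |c i| ≤ H ∨ |c j| ≤ H}

/-- bound for the orders of the zeros outside a countable set -/
noncomputable def KJ (a H : ℝ) : ℕ := KK a (2 * H) + 1

/-- the exponent -/
noncomputable def kJ (a H : ℝ) : ℝ := 1 / (4 * ((KJ a H : ℝ) + 1))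

/-- windows of characters -/
def Wn (r : ℕ) : Set (ℕ → ℤ) := {h | (∀ i, |h i| ≤ r) ∧ ∀ i, r ≤ i → h i = 0}

/-- coefficients of the factor number `i`; the factors from number `j` on carry the characters `h 0, h 1, ...` -/
noncomputable def cw (H : ℕ) (c : ℤ → ℂ) (h : ℕ → ℤ) (j i : ℕ) (k : ℤ) : ℂ :=
  if k - (if j ≤ i then h (i - j) else 0) ∈ Finset.Icc (-(H : ℤ)) H then c (k - (if j ≤ i then h (i - j) else 0)) else 0

/-- sum over the strings whose last nonzero entry has number `t` -/
noncomputable def QJ (a : ℝ) (H Hb : ℕ) (c : ℤ → ℂ) (h : ℕ → ℤ) (j J t : ℕ) (x : ℝ) : ℝ :=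
  ∑ b ∈ Z Hb t, (∏ i : Fin (t + 1), ‖cw H c h j i (b i)‖) * cut ((a ^ J)⁻¹) (fz b x)

/-- `x` is good -/
def CritJ (a : ℝ) (H r : ℕ) (c : ℤ → ℂ) (J L : ℕ) (ε x : ℝ) : Prop :=
  ∀ h ∈ Wn r, ∀ j, j + r ≤ L → ∑ t ∈ Finset.range L, QJ a H (H + r) c h j J t x ≤ ε

end Pool.Agent.GJ
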