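import Pool.Agent.Helper87.GJ.Pre
import Pool.Agent.Helper31.GJ.J7bc
import Pool.Agent.Helper59.MF.FinK
import Pool.Agent.Helper24.GJ.Lln

/-!
# GJ: the lower bound
-/

set_option autoImplicit false
open MeasureTheory Set Filter Topology
open Pool.Agent.Helper78.KD
open Pool.Agent.Helper18.KD (par idx pt Npos J_mono J_lt J_le t_mono len_pos par_lt par_eq exists_par ch_lt idx_lt idx_child pt_mem pt_mono)
open Pool.Agent.Helper82.FK (e norm_e continuous_e)
open Pool.Agent.Helper18.GP (gp nm)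
open Pool.Agent.Helper59.MF (Dens cc HasLaw HasJoint DD)
open Pool.Agent.Helper87.GP (Z fz cut contOn_u)
open Pool.Agent.GE

namespace Pool.Agent.GJ

/-- the estimate of J7 for fixed data -/
def E7J (a b α lam : ℝ) (H : ℕ) (c : ℤ → ℂ) (U : ℕ → Set ℝ) (Φ : ℕ → ℝ) : Prop :=
  ∀ (T : Tr) (m : ℕ → ℕ → ℝ) (nk : ℕ → ℕ) (Cl Cm : ℝ), Ms T m → (∀ k i, i ≤ T.N k → T.t k i ∈ Icc α b) → nk 0 = 0 →
    Tendsto nk atTop atTop → (∀ k, nk k ≤ nk (k + 1)) → (∀ ε > 0, ∃ C : ℝ, ∀ k, (nk (k + 1) : ℝ) ≤ (1 + ε) * nk k + C) →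
    (∀ k i, i < T.N k → T.len k i ≤ Cl * (α ^ (nk k))⁻¹) →
    (∀ k i, i < T.N k → m k i ≤ Cm * T.len k i * a ^ (kJ a H * nk k)) →
    ∃ Ψ : ℝ, 0 < Ψ ∧ ∀ r : ℕ,
      volume {w | w ∈ Ico (0 : ℝ) 1 ∧ pt T m w ∈ U r} ≤ ENNReal.ofReal (Ψ * (1 / 2) ^ r) ∧
      ∀ h ∈ Wn r, ∀ j J L : ℕ,
        ∫⁻ w in {w | w ∈ Ico (0 : ℝ) 1 ∧ pt T m w ∉ U r},
            ENNReal.ofReal (∑ t ∈ Finset.range L, QJ a H (H + r) c h j J t (pt T m w)) ≤
          ENNReal.ofReal (Ψ * Φ r * lam ^ J)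

/-- the gaps can be chosen -/
theorem gap_evJ {lam : ℝ} (h0 : 0 < lam) (h1 : lam < 1) (Φ : ℕ → ℝ) (r : ℕ) :
    ∀ᶠ J : ℕ in atTop, (2 * (r : ℝ) + 1) ^ r * (((J ^ 2 : ℕ) : ℝ) + 1) * (2 / εs r) * (Φ r * lam ^ J) ≤ (1 / 2) ^ r := by
  have h2 := tendsto_pow_const_mul_const_pow_of_abs_lt_one 2 (show |lam| < 1 by rwa [abs_of_pos h0])
  have h2' := tendsto_pow_const_mul_const_pow_of_abs_lt_one 0 (show |lam| < 1 by rwa [abs_of_pos h0])
  have h3 : Tendsto (fun J : ℕ => (2 * (r : ℝ) + 1) ^ r * (2 / εs r) * Φ r * ((J : ℝ) ^ 2 * lam ^ J + (J : ℝ) ^ 0 * lam ^ J)) atTop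
      (𝓝 ((2 * (r : ℝ) + 1) ^ r * (2 / εs r) * Φ r * (0 + 0))) := (h2.add h2').const_mul _
  rw [add_zero, mul_zero] at h3
  filter_upwards [h3.eventually_le_const (show (0 : ℝ) < (1 / 2) ^ r by positivity)] with J hJ
  push_cast
  calc (2 * (r : ℝ) + 1) ^ r * ((J : ℝ) ^ 2 + 1) * (2 / εs r) * (Φ r * lam ^ J) =
        (2 * (r : ℝ) + 1) ^ r * (2 / εs r) * Φ r * ((J : ℝ) ^ 2 * lam ^ J + (J : ℝ) ^ 0 * lam ^ J) := by ring
    _ ≤ _ := hJ

theorem lower_betaJ {a b α lam : ℝ} (ha : 1 < a) (haα : a < α) {H : ℕ} {c : ℤ → ℂ} {g : ℝ → ℝ}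
    (hg : ∀ t, gp H c t = g t) (hc : c 0 = 1) (hg0 : ∀ t, 0 < g t) (hW : nm H c < a ^ (kJ a H)) (hlam0 : 0 < lam)
    (hlam1 : lam < 1) {U : ℕ → Set ℝ} {Φ : ℕ → ℝ} (hU : ∀ r, IsOpen (U r)) (hΦ : ∀ n, 0 < Φ n) (hE7 : E7J a b α lam H c U Φ)
    {β₁ : ℝ} (hαβ : α < β₁) (hβb : β₁ < b) (s : ℕ → ℝ) :
    ENNReal.ofReal (1 - DD g / Real.log β₁) ≤
      dimH {x : ℝ | x ∈ Ioo a b ∧ HasJoint (fun n => x ^ (n + 1) + s n) g} := by
  classical
  have hd := dens hg hc hg0
  have hgc : Continuous g := hd.cont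
  have ha0 : 0 < a := by linarith
  have hα0 : 0 < α := by linarith
  have hα1 : 1 < α := by linarith
  have hβ1 : 1 < β₁ := by linarith
  have hlogβ : 0 < Real.log β₁ := Real.log_pos hβ1
  have hab : a ≤ b := by linarith
  -- the family
  obtain ⟨x₀, hx₀1, hx₀2⟩ := exists_between hβb
  obtain ⟨r₀, hr₀, hinst⟩ := Pool.Agent.Helper80.KD.inst_pow (x₀ := x₀) (τ := 1) (hβ1.trans hx₀1) hβ1 hx₀1 hx₀2 one_pos 0
  obtain ⟨n₀, v, a', b', hx, hsub, hF', -, -⟩ := hinst 1 one_pos s x₀ ⟨by linarith, by linarith⟩ _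
    (Ioo_mem_nhds hx₀1 hx₀2) 0 1 one_pos
  have hF : Fam (uu n₀ s) v a' b' β₁ b := hF'
  have hab' : a' < b' := hF.hab
  have ha'b' : Icc a' b' ⊆ Ioo β₁ b := hsub
  have hsubab : Icc a' b' ⊆ Icc a b := fun x hx => ⟨by linarith [(ha'b' hx).1], (ha'b' hx).2.le⟩
  obtain ⟨cs, Cs, hcs, hCs, hsize⟩ := Pool.Agent.Helper53.KD.size hF
  -- the gaps
  obtain ⟨Jf, hJm, hJr, hJP⟩ := exists_gap _ (gap_evJ hlam0 hlam1 Φ)
  -- the thresholds
  choose n0 ρ hρ hloc using fun r : ℕ => local_J ha hab hg hc hg0 r (Jf r) (Jf r ^ 2) (εs_pos r)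
  choose ρ' hρ' hnear using fun r : ℕ => crit_nearJ (a := a) (H := H) (c := c) (b := b) ha r (Jf r) (Jf r ^ 2) (εs_pos r)
  have hlen0 : ∀ r, ∃ Θ : ℕ, ∀ k ≥ Θ, Cs * Real.exp (-(k * Real.log β₁)) < min (ρ r) (ρ' r) := by
    intro r
    have h1 : Tendsto (fun k : ℕ => Cs * Real.exp (-((k : ℝ) * Real.log β₁))) atTop (𝓝 (Cs * 0)) := by
      refine Tendsto.const_mul _ (Real.tendsto_exp_neg_atTop_nhds_zero.comp ?_)
      exact tendsto_natCast_atTop_atTop.atTop_mul_const hlogβ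
    rw [mul_zero] at h1
    exact eventually_atTop.1 (h1.eventually_lt_const (lt_min (hρ r) (hρ' r)))
  choose Θ₃ hΘ₃ using hlen0
  obtain ⟨R, hR0, hRm, hRi, hRΘ, J, L, B, hB, hJL, hB1, hB4, hBm, hBi, hJB⟩ :=
    blocks (fun r => n0 r + Θ₃ r) Jf hJm hJr
  have hnk : ∀ k, k ≤ nn B k := nn_ge hB1
  -- the tree
  obtain ⟨T, ht0, ht1, hT⟩ := exists_treeE hF B
  have hlenT : ∀ k i, i < T.N k → T.len k i ≤ Cs * Real.exp (-((nn B k : ℕ) * Real.log β₁)) := by
    intro k i hi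
    obtain ⟨h1, h2⟩ := hT.inc k i hi
    exact (hsize (nn B k) _ (hT.mem k i hi.le) _ (hT.mem k (i + 1) hi) (T.lt k i hi) h1 h2).2
  have hlenR : ∀ k i, i < T.N k → R k ≠ 0 → T.len k i < min (ρ (R k)) (ρ' (R k)) := by
    intro k i hi hk
    refine (hlenT k i hi).trans_lt ?_
    refine hΘ₃ (R k) (nn B k) ?_
    have := hRΘ k hk
    have := hnk k
    omega
  -- states and masses
  set Q : ℕ → ℝ → Prop := fun r x => CritJ a H r c (Jf r) (Jf r ^ 2) (εs r) x with hQ
  set st : ℕ → ℕ → Prop := stE T (fun k => R k ≠ R (k - 1)) (fun k x => Q (R k) x) with hst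
  set tf := tfE (uu n₀ s) g J L B st with htf
  set m := em T tf with hm
  have htfc : ∀ k i, ContinuousOn (tf k i) (Icc a' b') := fun k i => tfE_cont hF hgc k i
  have htfp : ∀ k i, ∀ x ∈ Icc a' b', 0 < tf k i x := fun k i x _ => tfE_pos hg0 k i x
  have hms : Ms T m := em_ms hT.mem htfc htfp
  have hinv := st_inv hT.mem hR0 hRm (Q := Q) (ρ := ρ) (fun k i hi hk => (hlenR k i hi hk).trans_le (min_le_left _ _))
  -- the means on a good cell
  have hRJ : ∀ k, R k ≠ 0 → R k + 1 ≤ J k := fun k hk => by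
    rw [(hJL k hk).1]
    exact hJr (R k)
  have hfacts : ∀ k i, i < T.N k → st k i → R k ≠ 0 ∧
      |ic T k i (tf k i) - T.len k i| ≤ 3 * εs (R k) * T.len k i ∧
      ∀ h ∈ Wn (R k), ∀ j, j + R k ≤ L k →
        ‖(∫ x in (T.t k i)..(T.t k (i + 1)), e (ph (uu n₀ s) (R k) h (nn B k + J k + j) x) * (tf k i x : ℂ)) -
          zw H c (R k) h * ((T.len k i : ℝ) : ℂ)‖ ≤ 3 * εs (R k) * T.len k i := by
    intro k i hi hsti
    obtain ⟨hRk, x0, hx0, hcrit, hnr⟩ := hinv k i hi hsti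
    obtain ⟨hJk, hLk⟩ := hJL k hRk
    have h1 := hT.mem k i hi.le
    have h2 := hT.mem k (i + 1) hi
    have hlt := T.lt k i hi
    obtain ⟨hi1, hi2⟩ := hT.inc k i hi
    have h3 := abs_lt.1 (hnr (T.t k i) ⟨le_rfl, hlt.le⟩)
    have h4 := abs_lt.1 (hnr (T.t k (i + 1)) ⟨hlt.le, le_rfl⟩)
    have hn : n0 (R k) ≤ nn B k + n₀ + 1 := by
      have := hRΘ k hRk
      have := hnk k
      omega
    have hrL : R k ≤ Jf (R k) ^ 2 := by
      have := hJr (R k)
      nlinarith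
    have h5 := cell_factsJ hc (hloc (R k) x0 (hsubab hx0) hcrit) hrL hn s (hsubab h1).1 hlt (hsubab h2).2 (by linarith [h3.1])
      (by linarith [h4.2]) hi1 hi2
    have e1 : tf k i = fun x => ∏ j ∈ Finset.range (L k), g (uu n₀ s (nn B k + J k + j) x) := by
      funext x
      simp only [htf, tfE, if_pos hsti]
    rw [← hLk, ← hJk] at h5
    refine ⟨hRk, ?_, ?_⟩
    · rw [e1]
      exact h5.1
    · intro h hh l hl
      rw [e1]
      exact h5.2 h hh l hl
  have hI : ∀ k i, i < T.N k → st k i → T.len k i / 2 ≤ ic T k i (tf k i) := by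
    intro k i hi hsti
    obtain ⟨hRk, h1, -⟩ := hfacts k i hi hsti
    have h2 := (abs_le.1 h1).1
    have h3 := len_pos T k hi
    have h4 := εs_le (R k)
    nlinarith
  -- crude bound
  obtain ⟨K₀, B0, hK₀, hlipl, hB0⟩ := log_lip hd
  have hW1 : 1 ≤ nm H c := one_le_nm hc
  have hcr := em_crude hF hgc hg0 (fun t => g_le_nm hg t) hB hT hW1 hI
  obtain ⟨C₂, hC₂, hC₂b⟩ := crude_pow hW1 hW hBi
  have hl00 : 0 < T.len 0 0 := len_pos T 0 (Npos T 0)
  have hcm : ∀ k i, i < T.N k → m k i ≤ (C₂ / T.len 0 0) * T.len k i * a ^ (kJ a H * (nn B k : ℕ)) := by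
    intro k i hi
    have h1 := hcr k i hi
    have h2 := hC₂b k
    have h3 := len_pos T k hi
    have h4 : (a ^ (kJ a H)) ^ (nn B k) = a ^ (kJ a H * (nn B k : ℕ)) := by
      rw [← Real.rpow_natCast, ← Real.rpow_mul ha0.le]
    rw [h4] at h2
    calc m k i ≤ T.len k i / T.len 0 0 * 2 ^ k * nm H c ^ (nn B k) := h1
      _ = T.len k i / T.len 0 0 * (2 ^ k * nm H c ^ (nn B k)) := by ring
      _ ≤ T.len k i / T.len 0 0 * (C₂ * a ^ (kJ a H * (nn B k : ℕ))) := mul_le_mul_of_nonneg_left h2 (by positivity)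
      _ = _ := by ring
  -- the measure of the bad points
  have hlα : ∀ k i, i < T.N k → T.len k i ≤ Cs * (α ^ (nn B k))⁻¹ := by
    intro k i hi
    refine (hlenT k i hi).trans (mul_le_mul_of_nonneg_left ?_ hCs.le)
    rw [Real.exp_neg, Real.exp_nat_mul, Real.exp_log (by linarith)]
    exact inv_anti₀ (by positivity) (pow_le_pow_left₀ hα0.le hαβ.le _)
  have hratio : ∀ ε > 0, ∃ C : ℝ, ∀ k, ((nn B (k + 1) : ℕ) : ℝ) ≤ (1 + ε) * (nn B k : ℕ) + C := by
    intro ε hε
    obtain ⟨C, -, hC⟩ := blk_small hB1 hB4 hε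
    refine ⟨C, fun k => ?_⟩
    have h1 : ((nn B (k + 1) : ℕ) : ℝ) = nn B k + B k := by
      show ((nn B k + B k : ℕ) : ℝ) = _
      push_cast
      ring
    rw [h1]
    linarith [hC k]
  have hnmono : ∀ k, nn B k ≤ nn B (k + 1) := fun k => Nat.le_add_right _ _
  obtain ⟨Ψ, hΨ, hint⟩ := hE7 T m (nn B) Cs (C₂ / T.len 0 0) hms (fun k i hi => ⟨by linarith [(ha'b' (hT.mem k i hi)).1],
    (ha'b' (hT.mem k i hi)).2.le⟩) rfl (nn_tendsto hB1) hnmono hratio hlα hcm
  have hbc := bcJ (a := a) (H := H) (c := c) ha hlam0 hΨ hΦ (ε := εs) εs_pos hU (Jf := Jf) (Lf := fun r => Jf r ^ 2) hJP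
    (fun r => (hint r).1) (fun r => (hint r).2)
  -- almost every path is good from some level on
  have hIco : ∀ᵐ w ∂(volume.restrict (Ico (0 : ℝ) 1)), w ∈ Ico (0 : ℝ) 1 := ae_restrict_mem measurableSet_Ico
  have hgood : ∀ᵐ w ∂(volume.restrict (Ico (0 : ℝ) 1)), ∀ᶠ k in atTop, st k (idx T m k w) := by
    filter_upwards [hbc, hIco] with w hw hw1
    refine st_ev hms hw1 (start_freq hRm hRi) ?_
    filter_upwards [hRi.eventually hw, hRi.eventually_ne_atTop 0] with k hk hk0 _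
    have h1 := pt_mem hms.zero hms.nn hms.sum k hw1.1 hw1.2
    have h2 := idx_lt (T := T) (m := m) k w
    have h3 := hlenR k _ h2 hk0
    have h4 := hT.mem k (idx T m k w) h2.le
    have h5 := hT.mem k (idx T m k w + 1) h2
    refine hnear (R k) (pt T m w) ⟨by linarith [h1.1, (hsubab h4).1], by linarith [h1.2, (hsubab h5).2]⟩ _ (hsubab h4) ?_ hk
    rw [abs_of_nonneg (by linarith [h1.1])]
    have h6 : T.len k (idx T m k w) < ρ' (R k) := h3.trans_le (min_le_right _ _)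
    unfold Tr.len at h6
    linarith [h1.2]
  -- law of large numbers
  have hδ0 : Tendsto (fun k => 6 * εs (R k)) atTop (𝓝 0) := by
    simp_rw [εs_six]
    have h2 : Tendsto (fun k => (R k : ℝ) + 1) atTop atTop :=
      tendsto_atTop_add_const_right _ _ (tendsto_natCast_atTop_atTop.comp hRi)
    exact h2.const_div_atTop 1
  have hll : ∀ p : (Σ r : ℕ, (Fin r → ℤ)), ∀ᵐ w ∂(volume.restrict (Ico (0 : ℝ) 1)),
      Tendsto (fun N : ℕ => (∑ n ∈ Finset.range N, e (ph (uu n₀ s) p.1 (ext p.1 p.2) n (pt T m w))) / (N : ℂ)) atTop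
        (𝓝 (zw H c p.1 (ext p.1 p.2))) := by
    rintro ⟨r, f⟩
    simp only
    set h : ℕ → ℤ := ext r f with hh
    have hh0 : ∀ i, r ≤ i → h i = 0 := fun i hi => ext_zero f hi
    obtain ⟨R₀, hrR₀, hR₀⟩ := ext_Wn f
    set z : ℂ := zw H c r h with hz'
    have hz : ‖z‖ ≤ 1 := norm_zw hd r h
    set δ : ℕ → ℝ := fun k => if R₀ ≤ R k then 6 * εs (R k) else 1 with hδ
    have hδt : Tendsto δ atTop (𝓝 0) := by
      refine hδ0.congr' ?_
      filter_upwards [hRi.eventually_ge_atTop R₀] with k hk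
      simp only [hδ]
      rw [if_pos hk]
    have hphc : ∀ n, ContinuousOn (ph (uu n₀ s) r h n) (Icc a' b') := fun n => ph_cont hF r h n
    have hmeans : ∀ k i, i < T.N k → st k i → R₀ ≤ R k → ∀ l, J k ≤ l → l + J k ≤ B k →
        |ic T k i (fun x => obr 1 z (ph (uu n₀ s) r h (nn B k + l) x) * tf k i x)| ≤ 6 * εs (R k) * ic T k i (tf k i) ∧
        |ic T k i (fun x => obi 1 z (ph (uu n₀ s) r h (nn B k + l) x) * tf k i x)| ≤ 6 * εs (R k) * ic T k i (tf k i) := by
      intro k i hi hsti hRk0 l hl1 hl2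
      obtain ⟨hRk, h1, h2⟩ := hfacts k i hi hsti
      obtain ⟨j, rfl⟩ := Nat.exists_eq_add_of_le hl1
      have hBk := hB k
      have hRJk := hRJ k hRk
      have hj : j + R k ≤ L k := by omega
      have h3 := h2 h (hR₀ _ hRk0) j hj
      rw [zw_mono hc (hrR₀.trans hRk0) hh0] at h3
      simp only [ph_mono (uu n₀ s) (hrR₀.trans hRk0) hh0] at h3
      have hcs : Icc (T.t k i) (T.t k (i + 1)) ⊆ Icc a' b' := cell_sub hT.mem hi
      have h4 := ob_mean (T.lt k i hi) (F := tf k i) (U := ph (uu n₀ s) r h (nn B k + J k + j)) (h := 1) (z := z)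
        ((htfc k i).mono hcs) ((hphc _).mono hcs) hz (εs_pos (R k)).le (εs_le (R k)) h1 (by
          simp only [Int.cast_one, one_mul]
          exact h3)
      rw [← add_assoc]
      exact ⟨h4.2.1, h4.2.2⟩
    have hall : ∀ φ : ℝ → ℝ, Continuous φ → (∀ t, |φ t| ≤ 1) → (∀ k i, i < T.N k → st k i → R₀ ≤ R k → ∀ l, J k ≤ l → l + J k ≤ B k →
        |ic T k i (fun x => φ (ph (uu n₀ s) r h (nn B k + l) x) * tf k i x)| ≤ 6 * εs (R k) * ic T k i (tf k i)) →
        ∀ k i, i < T.N k → st k i → ∀ l, J k ≤ l → l + J k ≤ B k →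
          |ic T k i (fun x => φ (ph (uu n₀ s) r h (nn B k + l) x) * tf k i x)| ≤ δ k * ic T k i (tf k i) := by
      intro φ hφc hφ1 hφ k i hi hsti l hl1 hl2
      simp only [hδ]
      split_ifs with hh
      · exact hφ k i hi hsti hh l hl1 hl2
      · rw [one_mul]
        have hcs : Icc (T.t k i) (T.t k (i + 1)) ⊆ Icc a' b' := cell_sub hT.mem hi
        have hc1 : ContinuousOn (fun x => φ (ph (uu n₀ s) r h (nn B k + l) x) * tf k i x) (Icc a' b') :=
          (hφc.comp_continuousOn (hphc _)).mul (htfc k i)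
        have hb1 : ∀ x ∈ T.cell k i, φ (ph (uu n₀ s) r h (nn B k + l) x) * tf k i x ≤ tf k i x := fun x hx => by
          have h1 := (abs_le.1 (hφ1 (ph (uu n₀ s) r h (nn B k + l) x))).2
          have h2 := (htfp k i x (hcs hx)).le
          nlinarith
        have hb2 : ∀ x ∈ T.cell k i, -tf k i x ≤ φ (ph (uu n₀ s) r h (nn B k + l) x) * tf k i x := fun x hx => by
          have h1 := (abs_le.1 (hφ1 (ph (uu n₀ s) r h (nn B k + l) x))).1
          have h2 := (htfp k i x (hcs hx)).le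
          nlinarith
        rw [abs_le]
        constructor
        · have h3 := ic_mono hT.mem (htfc k i).neg hc1 hi hb2
          have h4 : ic T k i (-tf k i) = -ic T k i (tf k i) := by
            unfold ic
            simp only [Pi.neg_apply]
            exact intervalIntegral.integral_neg
          rw [h4] at h3
          exact h3
        · exact ic_mono hT.mem hc1 (htfc k i) hi hb1
    have hcr : Continuous (obr 1 z) := by
      unfold obr
      exact ((Complex.continuous_re.comp ((continuous_e.comp (continuous_const.mul continuous_id)).sub continuous_const))).div_const 2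
    have hci : Continuous (obi 1 z) := by
      unfold obi
      exact ((Complex.continuous_im.comp ((continuous_e.comp (continuous_const.mul continuous_id)).sub continuous_const))).div_const 2
    -- oscillation
    set Kh : ℝ := ∑ i ∈ Finset.range r, |(h i : ℝ)| * b ^ i with hKh
    have hb0 : 0 < b := by linarith
    have hKh0 : 0 ≤ Kh := Finset.sum_nonneg fun i _ => by positivity
    have hosc : ∀ φ : ℝ → ℝ, (∀ s t, |φ s - φ t| ≤ (Real.pi * |((1 : ℤ) : ℝ)|) * |s - t|) → ∀ k i, i < T.N k →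
        ∀ x ∈ T.cell k i, ∀ y ∈ T.cell k i,
        |(∑ n ∈ Finset.range (nn B k), φ (ph (uu n₀ s) r h n x)) - ∑ n ∈ Finset.range (nn B k), φ (ph (uu n₀ s) r h n y)| ≤
          Real.pi * Kh / (β₁ - 1) * 2 := by
      intro φ hφ k i hi
      have hcs : Icc (T.t k i) (T.t k (i + 1)) ⊆ Icc a' b' := cell_sub hT.mem hi
      have key : ∀ x ∈ T.cell k i, ∀ y ∈ T.cell k i, x ≤ y →
          |(∑ n ∈ Finset.range (nn B k), φ (ph (uu n₀ s) r h n x)) - ∑ n ∈ Finset.range (nn B k), φ (ph (uu n₀ s) r h n y)| ≤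
          Real.pi * Kh / (β₁ - 1) * 2 := by
        intro x hx y hy hxy
        have h1 := osc_of hF (ψ := fun n x => φ (ph (uu n₀ s) r h n x)) (K := Real.pi * Kh) (by positivity) (fun n x hx y hy hxy => by
          refine (hφ _ _).trans ?_
          have h2 := ph_lip hF r h n hx hy hxy
          rw [Int.cast_one, abs_one, mul_one, mul_assoc]
          exact mul_le_mul_of_nonneg_left h2 Real.pi_pos.le) (nn B k) (hcs hx) (hcs hy) hxy
        refine h1.trans ?_
        have hβ' : 0 < β₁ - 1 := by linarith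
        refine mul_le_mul_of_nonneg_left ?_ (by positivity)
        have h3 := Pool.Agent.Helper87.GP.incr_nonneg hF (nn B k) (hT.mem k i hi.le) (hcs hx) hx.1
        have h4 := Pool.Agent.Helper87.GP.incr_nonneg hF (nn B k) (hcs hy) (hT.mem k (i + 1) hi) hy.2
        linarith [(hT.inc k i hi).2]
      intro x hx y hy
      rcases le_total x y with hxy | hxy
      · exact key x hx y hy hxy
      · rw [abs_sub_comm]
        exact key y hy x hx hxy
    have l1 := llnJ hT.mem hB1 hB4 hBm hJB hBi (ψ := fun n x => obr 1 z (ph (uu n₀ s) r h n x))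
      (fun n => hcr.comp_continuousOn (hphc n)) (fun n x _ => obr_le hz _) (hosc _ (obr_lip 1 z))
      (st := st) (tf := tf) htfc htfp hδt (hall _ hcr (obr_le hz) fun k i hi hsti hR l hl1 hl2 => (hmeans k i hi hsti hR l hl1 hl2).1)
    have l2 := llnJ hT.mem hB1 hB4 hBm hJB hBi (ψ := fun n x => obi 1 z (ph (uu n₀ s) r h n x))
      (fun n => hci.comp_continuousOn (hphc n)) (fun n x _ => obi_le hz _) (hosc _ (obi_lip 1 z))
      (st := st) (tf := tf) htfc htfp hδt (hall _ hci (obi_le hz) fun k i hi hsti hR l hl1 hl2 => (hmeans k i hi hsti hR l hl1 hl2).2)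
    filter_upwards [l1, l2, hgood] with w hw1 hw2 hw3
    have h9 := ob_lim (h := 1) (z := z) (U := fun n => ph (uu n₀ s) r h n (pt T m w)) (hw1 hw3) (hw2 hw3)
    simp only [Int.cast_one, one_mul] at h9
    exact h9
  have hllall : ∀ᵐ w ∂(volume.restrict (Ico (0 : ℝ) 1)), ∀ p : (Σ r : ℕ, (Fin r → ℤ)),
      Tendsto (fun N : ℕ => (∑ n ∈ Finset.range N, e (ph (uu n₀ s) p.1 (ext p.1 p.2) n (pt T m w))) / (N : ℂ)) atTop
        (𝓝 (zw H c p.1 (ext p.1 p.2))) :=
    ae_all_iff.2 hll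
  -- the masses along a path
  obtain ⟨D, hD, hpath⟩ := em_path hF hgc hg0 hK₀ hlipl hB0 hB hT (st := st) hI
  refine lower_aeE T m hms (nn B) (nn_tendsto hB1) hnmono ?_ hlogβ hCs (DD_nonneg hd) hlenT _ ?_
  · intro ε hε
    obtain ⟨C, hC0, hC⟩ := blk_small hB1 hB4 (show 0 < ε / 2 by positivity)
    have h1 : Tendsto (fun k => (nn B k : ℝ)) atTop atTop := tendsto_natCast_atTop_atTop.comp (nn_tendsto hB1)
    filter_upwards [h1.eventually_ge_atTop (2 * C / ε)] with k hk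
    have h2 : ((nn B (k + 1) : ℕ) : ℝ) = nn B k + B k := by
      show ((nn B k + B k : ℕ) : ℝ) = _
      push_cast
      ring
    rw [h2]
    have h3 := hC k
    rw [div_le_iff₀ hε] at hk
    linarith
  · filter_upwards [hllall, hgood, hIco] with w hw hwg hw1
    have hXc := pt_mem hms.zero hms.nn hms.sum 0 hw1.1 hw1.2
    have h2 := idx_lt (T := T) (m := m) 0 w
    have h4 := hT.mem 0 (idx T m 0 w) h2.le
    have h5 := hT.mem 0 (idx T m 0 w + 1) h2
    have hXab : pt T m w ∈ Ioo a b := by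
      have h6 := ha'b' h4
      have h7 := ha'b' h5
      exact ⟨by linarith [hXc.1, h6.1], by linarith [hXc.2, h7.2]⟩
    have hjoint : ∀ (h : ℕ → ℤ) (r : ℕ), Tendsto (fun N : ℕ => (∑ n ∈ Finset.range N,
        Pool.Agent.Helper59.RE.e (∑ l ∈ Finset.range r, (h l : ℝ) * uu n₀ s (n + l) (pt T m w))) / (N : ℂ)) atTop
        (𝓝 (∏ l ∈ Finset.range r, ∫ t in (0 : ℝ)..1, Pool.Agent.Helper59.RE.e (h l * t) * g t)) := by
      intro h r
      have h1 := hw ⟨r, fun i => h i⟩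
      simp only at h1
      have hex : ∀ i ∈ Finset.range r, ext r (fun i : Fin r => h i) i = h i := fun i hi => dif_pos (Finset.mem_range.1 hi)
      have e1 : ∏ l ∈ Finset.range r, ∫ t in (0 : ℝ)..1, Pool.Agent.Helper59.RE.e (h l * t) * g t =
          zw H c r (ext r fun i : Fin r => h i) := by
        unfold zw
        refine Finset.prod_congr rfl fun i hi => ?_
        rw [hex i hi]
        exact hd.coeff (h i)
      rw [e1]
      refine h1.congr fun N => ?_
      congr 1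
      refine Finset.sum_congr rfl fun n _ => ?_
      rw [e_eq]
      congr 1
      unfold ph
      refine Finset.sum_congr rfl fun i hi => ?_
      rw [hex i hi]
    have hju : HasJoint (fun n => uu n₀ s n (pt T m w)) g := hjoint
    refine ⟨⟨hXab, ?_⟩, ?_⟩
    · refine (Pool.Agent.Helper59.MF.joint_shift _ g n₀).1 ?_
      have h2 : (fun n => pt T m w ^ (n + n₀ + 1) + s (n + n₀)) = fun n => uu n₀ s n (pt T m w) := by
        funext n
        unfold uu
        rw [one_mul]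
      show HasJoint (fun n => pt T m w ^ (n + n₀ + 1) + s (n + n₀)) g
      rw [h2]
      exact hju
    · intro I' hI'
      obtain ⟨D', hD'⟩ := hpath w hw1 hwg
      have hlaw : HasLaw (fun n => uu n₀ s n (pt T m w)) g := hju.law hd
      have h6 := hlaw (fun t => Real.log (g t)) (hgc.log fun t => (hg0 t).ne') fun t => by rw [hd.per]
      have h7 : (∫ t in (0 : ℝ)..1, Real.log (g t) * g t) = DD g := by
        unfold DD
        exact intervalIntegral.integral_congr fun t _ => mul_comm _ _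
      rw [h7] at h6
      have hnt := nn_tendsto hB1
      have h8 := h6.comp hnt
      have h9 : Tendsto (fun k => (∑ i ∈ Finset.range k, D * ((J i : ℝ) + 1)) / (nn B k : ℕ)) atTop (𝓝 0) := by
        refine cesaro_nn hB1 (fun k => by positivity) ?_
        have h10 : Tendsto (fun k => D * ((J k : ℝ) / B k) + D * (1 / (B k : ℝ))) atTop (𝓝 (D * 0 + D * 0)) := by
          refine (hJB.const_mul D).add (Tendsto.const_mul D ?_)
          exact (tendsto_natCast_atTop_atTop.comp hBi).const_div_atTop 1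
        rw [mul_zero, add_zero] at h10
        refine h10.congr fun k => ?_
        ring
      have h10 : Tendsto (fun k => D' / ((nn B k : ℕ) : ℝ)) atTop (𝓝 0) := (tendsto_natCast_atTop_atTop.comp hnt).const_div_atTop D'
      have h11 := (h10.add h8).add h9
      simp only [zero_add, add_zero] at h11
      filter_upwards [h11.eventually_lt_const hI', (tendsto_natCast_atTop_atTop.comp hnt).eventually_gt_atTop (0 : ℝ)] with k hk hk0
      refine (hD' k).trans (mul_le_mul_of_nonneg_left (Real.exp_le_exp.2 ?_) (len_pos T k (idx_lt k w)).le)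
      simp only [Function.comp_apply] at hk hk0
      rw [← add_div, ← add_div, div_lt_iff₀ hk0] at hk
      have h12 : S (fun t => Real.log (g t)) (uu n₀ s) (nn B k) (pt T m w) =
          ∑ n ∈ Finset.range (nn B k), Real.log (g (uu n₀ s n (pt T m w))) := rfl
      rw [h12]
      linarith

end Pool.Agent.GJ
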