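import Pool.Agent.Helper87.GJ.Asm
import Pool.Agent.Helper36.GJ.J1b
import Pool.Agent.Helper44.GJ.CritJ
import Pool.Agent.Helper82.GJ.Upper

/-!
# GJ: the exact dimension, from the countability of the set of the zeros of high order
-/

set_option autoImplicit false
open MeasureTheory Set Filter Topology
open Pool.Agent.Helper18.GP (gp nm F)
open Pool.Agent.Helper59.MF (Dens cc HasLaw HasJoint DD)
open Pool.Agent.GE (dens)

namespace Pool.Agent.GJ

/-- the set of J1a is countable for all `r` -/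
def CtbJ (a b : ℝ) (H : ℕ) : Prop :=
  ∀ r : ℕ, {x : ℝ | x ∈ Icc a b ∧ ∃ c ∈ Fs H r, ∀ l ≤ KJ a H, F l (fun j => (c j : ℝ)) x = 0}.Countable

theorem lower_J_of {a b : ℝ} (ha : 1 < a) (hab : a < b) {H : ℕ} (hctb : CtbJ a b H) {c : ℤ → ℂ} {g : ℝ → ℝ}
    (hg : ∀ t, gp H c t = g t) (hc : c 0 = 1) (hg0 : ∀ t, 0 < g t) (hW : nm H c < a ^ (kJ a H)) (s : ℕ → ℝ) :
    ENNReal.ofReal (1 - (∫ t in (0 : ℝ)..1, g t * Real.log (g t)) / Real.log b) ≤
      dimH {x : ℝ | x ∈ Ioo a b ∧ HasJoint (fun n => x ^ (n + 1) + s n) g} := by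
  obtain ⟨α, lam, haα, hαb, hl0, hl1, U, Φ, hU, hΦ, hE7⟩ := Pool.Agent.Helper44.GJ.crit_massJ_of ha hab
    (fun r η hη => sublevelJ_of ha hab.le r (hctb r) hη) hc hW
  have hlogb : 0 < Real.log b := Real.log_pos (by linarith)
  have hcont : Tendsto (fun β : ℝ => ENNReal.ofReal (1 - DD g / Real.log β)) (𝓝[<] b) (𝓝 (ENNReal.ofReal (1 - DD g / Real.log b))) := by
    refine ENNReal.tendsto_ofReal ?_
    refine tendsto_const_nhds.sub ?_
    refine Tendsto.div tendsto_const_nhds ?_ hlogb.ne'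
    exact ((Real.continuousAt_log (by linarith)).tendsto).mono_left nhdsWithin_le_nhds
  refine le_of_tendsto hcont ?_
  filter_upwards [Ioo_mem_nhdsLT hαb] with β hβ
  exact lower_betaJ ha haα hg hc hg0 hW hl0 hl1 hU hΦ hE7 hβ.1 hβ.2 s

/-- the dimension of the set of the `x` with the law `g`, and of the subset of those with independent terms -/
theorem dim_J_of {a b : ℝ} (ha : 1 < a) (hab : a < b) {H : ℕ} (hH : 1 ≤ H) (hctb : CtbJ a b H) {c : ℤ → ℂ}
    {g : ℝ → ℝ} (hg : ∀ t, gp H c t = g t) (hc : c 0 = 1) (hg0 : ∀ t, 0 < g t) (hW : nm H c < a ^ (kJ a H)) (s : ℕ → ℝ) :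
    dimH {x : ℝ | x ∈ Ioo a b ∧ HasLaw (fun n => x ^ (n + 1) + s n) g} =
        ENNReal.ofReal (1 - (∫ t in (0 : ℝ)..1, g t * Real.log (g t)) / Real.log b) ∧
      dimH {x : ℝ | x ∈ Ioo a b ∧ HasJoint (fun n => x ^ (n + 1) + s n) g} =
        ENNReal.ofReal (1 - (∫ t in (0 : ℝ)..1, g t * Real.log (g t)) / Real.log b) := by
  have h1 := upper_J ha hab hH hg hc hg0 hW s
  have h2 := lower_J_of ha hab hctb hg hc hg0 hW s
  have h3 : dimH {x : ℝ | x ∈ Ioo a b ∧ HasJoint (fun n => x ^ (n + 1) + s n) g} ≤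
      dimH {x : ℝ | x ∈ Ioo a b ∧ HasLaw (fun n => x ^ (n + 1) + s n) g} :=
    dimH_mono fun x hx => ⟨hx.1, hx.2.law (dens hg hc hg0)⟩
  exact ⟨le_antisymm h1 (h2.trans h3), le_antisymm (h3.trans h1) h2⟩

end Pool.Agent.GJ
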