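import Pool.Agent.Helper87.GJ.Defs
import Pool.Agent.Helper87.GE.Asm
import Pool.Agent.Helper59.MF.FinJ
import Pool.Agent.Helper34.GJ.J4

/-!
# GJ: windows of characters, oscillation of the observables, the means on a good cell
-/

set_option autoImplicit false
open MeasureTheory Set Filter Topology
open Pool.Agent.Helper78.KD
open Pool.Agent.Helper82.FK (e norm_e continuous_e)
open Pool.Agent.Helper18.GP (gp nm)
open Pool.Agent.Helper59.MF (Dens cc HasLaw HasJoint DD)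
open Pool.Agent.Helper87.GP (incr incr_nonneg contOn_u)
open Pool.Agent.GE (uu nn norm_cc e_eq)

namespace Pool.Agent.GJ

/-- the window of the string `f`, extended by zero -/
def ext (r : ℕ) (f : Fin r → ℤ) (i : ℕ) : ℤ := if h : i < r then f ⟨i, h⟩ else 0

theorem ext_zero {r : ℕ} (f : Fin r → ℤ) {i : ℕ} (hi : r ≤ i) : ext r f i = 0 := dif_neg (by omega)

/-- every window belongs to all late stages -/
theorem ext_Wn {r : ℕ} (f : Fin r → ℤ) : ∃ R₀ : ℕ, r ≤ R₀ ∧ ∀ R ≥ R₀, ext r f ∈ Wn R := by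
  refine ⟨r + ∑ i ∈ Finset.range r, (ext r f i).natAbs, by omega, fun R hR => ⟨fun i => ?_, fun i hi => ext_zero f (by omega)⟩⟩
  rcases lt_or_ge i r with hi | hi
  · have h1 : (ext r f i).natAbs ≤ ∑ i ∈ Finset.range r, (ext r f i).natAbs :=
      Finset.single_le_sum (f := fun i => (ext r f i).natAbs) (fun _ _ => Nat.zero_le _) (Finset.mem_range.2 hi)
    have h2 : ((ext r f i).natAbs : ℤ) ≤ (R : ℤ) := by exact_mod_cast (by omega : (ext r f i).natAbs ≤ R)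
    rwa [Int.natCast_natAbs] at h2
  · rw [ext_zero f hi, abs_zero]
    exact Int.natCast_nonneg R

/-- the phase of a window -/
noncomputable def ph (u : ℕ → ℝ → ℝ) (r : ℕ) (h : ℕ → ℤ) (n : ℕ) (x : ℝ) : ℝ := ∑ i ∈ Finset.range r, (h i : ℝ) * u (n + i) x

theorem ph_cont {u v : ℕ → ℝ → ℝ} {a b β₁ β₂ : ℝ} (hF : Fam u v a b β₁ β₂) (r : ℕ) (h : ℕ → ℤ) (n : ℕ) :
    ContinuousOn (ph u r h n) (Icc a b) := by
  unfold ph
  exact continuousOn_finsetSum _ fun i _ => continuousOn_const.mul (contOn_u hF _)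

/-- upper bound for the increments -/
theorem incr_up {u v : ℕ → ℝ → ℝ} {a b β₁ β₂ : ℝ} (hF : Fam u v a b β₁ β₂) (n : ℕ) {x y : ℝ} (hx : x ∈ Icc a b) (hy : y ∈ Icc a b)
    (hxy : x ≤ y) : u (n + 1) y - u (n + 1) x ≤ β₂ * (u n y - u n x) := by
  have hmono : MonotoneOn (fun z => β₂ * u n z - u (n + 1) z) (Icc a b) := by
    have hd : ∀ z ∈ Icc a b, HasDerivAt (fun z => β₂ * u n z - u (n + 1) z) (β₂ * v n z - v (n + 1) z) z := fun z hz =>
      ((hF.deriv n z hz).const_mul β₂).sub (hF.deriv (n + 1) z hz)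
    refine monotoneOn_of_deriv_nonneg (convex_Icc a b) (fun z hz => (hd z hz).continuousAt.continuousWithinAt) ?_ ?_
    · intro z hz
      rw [interior_Icc] at hz
      exact (hd z (Ioo_subset_Icc_self hz)).differentiableAt.differentiableWithinAt
    · intro z hz
      rw [interior_Icc] at hz
      rw [(hd z (Ioo_subset_Icc_self hz)).deriv]
      linarith [(hF.growth n z (Ioo_subset_Icc_self hz)).2]
  have h1 := hmono hx hy hxy
  simp only at h1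
  linarith

theorem incr_up_pow {u v : ℕ → ℝ → ℝ} {a b β₁ β₂ : ℝ} (hF : Fam u v a b β₁ β₂) (n i : ℕ) {x y : ℝ} (hx : x ∈ Icc a b)
    (hy : y ∈ Icc a b) (hxy : x ≤ y) : u (n + i) y - u (n + i) x ≤ β₂ ^ i * (u n y - u n x) := by
  have hβ2 : 0 ≤ β₂ := by linarith [hF.hβ, hF.hβ']
  induction i with
  | zero => simp
  | succ i ih =>
    calc u (n + (i + 1)) y - u (n + (i + 1)) x ≤ β₂ * (u (n + i) y - u (n + i) x) := incr_up hF (n + i) hx hy hxy
      _ ≤ β₂ * (β₂ ^ i * (u n y - u n x)) := mul_le_mul_of_nonneg_left ih hβ2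
      _ = _ := by ring

theorem ph_lip {u v : ℕ → ℝ → ℝ} {a b β₁ β₂ : ℝ} (hF : Fam u v a b β₁ β₂) (r : ℕ) (h : ℕ → ℤ) (n : ℕ) {x y : ℝ}
    (hx : x ∈ Icc a b) (hy : y ∈ Icc a b) (hxy : x ≤ y) :
    |ph u r h n x - ph u r h n y| ≤ (∑ i ∈ Finset.range r, |(h i : ℝ)| * β₂ ^ i) * (u n y - u n x) := by
  unfold ph
  rw [← Finset.sum_sub_distrib, Finset.sum_mul]
  refine (Finset.abs_sum_le_sum_abs _ _).trans (Finset.sum_le_sum fun i _ => ?_)
  rw [← mul_sub, abs_mul, mul_assoc]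
  refine mul_le_mul_of_nonneg_left ?_ (abs_nonneg _)
  rw [abs_sub_comm, abs_of_nonneg (incr_nonneg hF _ hx hy hxy)]
  exact incr_up_pow hF n i hx hy hxy

/-- oscillation of sums -/
theorem osc_of {u v : ℕ → ℝ → ℝ} {a b β₁ β₂ : ℝ} (hF : Fam u v a b β₁ β₂) {ψ : ℕ → ℝ → ℝ} {K : ℝ} (hK : 0 ≤ K)
    (hψ : ∀ n, ∀ x ∈ Icc a b, ∀ y ∈ Icc a b, x ≤ y → |ψ n x - ψ n y| ≤ K * (u n y - u n x)) (n : ℕ)
    {x y : ℝ} (hx : x ∈ Icc a b) (hy : y ∈ Icc a b) (hxy : x ≤ y) :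
    |(∑ m ∈ Finset.range n, ψ m x) - ∑ m ∈ Finset.range n, ψ m y| ≤ K / (β₁ - 1) * (u n y - u n x) := by
  have hβ := hF.hβ
  have hβ' : 0 < β₁ - 1 := by linarith
  induction n with
  | zero =>
    have := incr_nonneg hF 0 hx hy hxy
    simp only [Finset.range_zero, Finset.sum_empty, sub_self, abs_zero]
    positivity
  | succ n ih =>
    have h1 := incr_nonneg hF n hx hy hxy
    have h2 := incr hF n hx hy hxy
    have e1 : (∑ m ∈ Finset.range (n + 1), ψ m x) - ∑ m ∈ Finset.range (n + 1), ψ m y =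
        ((∑ m ∈ Finset.range n, ψ m x) - ∑ m ∈ Finset.range n, ψ m y) + (ψ n x - ψ n y) := by
      rw [Finset.sum_range_succ, Finset.sum_range_succ]; ring
    rw [e1]
    have h3 := hψ n x hx y hy hxy
    calc _ ≤ K / (β₁ - 1) * (u n y - u n x) + K * (u n y - u n x) := (abs_add_le _ _).trans (add_le_add ih h3)
      _ = K / (β₁ - 1) * (β₁ * (u n y - u n x)) := by field_simp; ring
      _ ≤ _ := mul_le_mul_of_nonneg_left h2 (by positivity)

variable {H : ℕ} {c : ℤ → ℂ} {g : ℝ → ℝ}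

theorem cc_zero (hc : c 0 = 1) : cc H c 0 = 1 := by
  unfold cc
  rw [if_pos (by rw [neg_zero, Finset.mem_Icc]; constructor <;> omega), neg_zero, hc]

theorem e_nought : e 0 = 1 := by unfold e; simp

/-- the limit of the means -/
noncomputable def zw (H : ℕ) (c : ℤ → ℂ) (r : ℕ) (h : ℕ → ℤ) : ℂ := ∏ i ∈ Finset.range r, cc H c (h i)

theorem norm_zw (hd : Dens H c g) (r : ℕ) (h : ℕ → ℤ) : ‖zw H c r h‖ ≤ 1 := by
  unfold zw
  rw [norm_prod]
  exact Finset.prod_le_one (fun _ _ => norm_nonneg _) fun i _ => norm_cc hd _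

theorem zw_mono (hc : c 0 = 1) {r R : ℕ} (hrR : r ≤ R) {h : ℕ → ℤ} (hh : ∀ i, r ≤ i → h i = 0) : zw H c R h = zw H c r h := by
  unfold zw
  refine (Finset.prod_subset (Finset.range_subset_range.2 hrR) fun i _ hi => ?_).symm
  rw [hh i (by simpa using hi), cc_zero hc]

theorem ph_mono (u : ℕ → ℝ → ℝ) {r R : ℕ} (hrR : r ≤ R) {h : ℕ → ℤ} (hh : ∀ i, r ≤ i → h i = 0) (n : ℕ) (x : ℝ) :
    ph u R h n x = ph u r h n x := by
  unfold ph
  refine (Finset.sum_subset (Finset.range_subset_range.2 hrR) fun i _ hi => ?_).symm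
  rw [hh i (by simpa using hi), Int.cast_zero, zero_mul]

theorem cell_factsJ {a b : ℝ} {r J L n0 : ℕ} {ε ρ x0 : ℝ} (hc : c 0 = 1)
    (hloc : ∀ n ≥ n0, ∀ p q : ℝ, a ≤ p → p < q → q ≤ b →
      x0 - ρ < p → q < x0 + ρ → 1 ≤ q ^ n - p ^ n → q ^ n - p ^ n ≤ 2 → ∀ s : ℕ → ℝ, ∀ h ∈ Wn r, ∀ j, j + r ≤ L →
        ‖(∫ x in p..q, e (∑ i ∈ Finset.range r, h i * (x ^ (n + J + (j + i)) + s (j + i))) *
            ((∏ i ∈ Finset.range L, g (x ^ (n + J + i) + s i) : ℝ) : ℂ)) -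
          (∏ i ∈ Finset.range r, cc H c (h i)) * ((q - p : ℝ) : ℂ)‖ ≤ 3 * ε * (q - p))
    (hrL : r ≤ L) {n₀ m : ℕ} (hn : n0 ≤ m + n₀ + 1) (s : ℕ → ℝ) {p q : ℝ} (hp : a ≤ p) (hpq : p < q) (hq : q ≤ b)
    (hx1 : x0 - ρ < p) (hx2 : q < x0 + ρ) (hinc1 : 1 ≤ uu n₀ s m q - uu n₀ s m p) (hinc2 : uu n₀ s m q - uu n₀ s m p ≤ 2) :
    |(∫ x in p..q, ∏ i ∈ Finset.range L, g (uu n₀ s (m + J + i) x)) - (q - p)| ≤ 3 * ε * (q - p) ∧
      ∀ h ∈ Wn r, ∀ j, j + r ≤ L →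
        ‖(∫ x in p..q, e (ph (uu n₀ s) r h (m + J + j) x) * ((∏ i ∈ Finset.range L, g (uu n₀ s (m + J + i) x) : ℝ) : ℂ)) -
          zw H c r h * ((q - p : ℝ) : ℂ)‖ ≤ 3 * ε * (q - p) := by
  have e1 : uu n₀ s m q - uu n₀ s m p = q ^ (m + n₀ + 1) - p ^ (m + n₀ + 1) := by
    unfold uu
    ring
  rw [e1] at hinc1 hinc2
  have h2 := hloc (m + n₀ + 1) hn p q hp hpq hq hx1 hx2 hinc1 hinc2 (fun i => s (m + J + i + n₀))
  have e2 : ∀ (i : ℕ) (x : ℝ), x ^ (m + n₀ + 1 + J + i) + s (m + J + i + n₀) = uu n₀ s (m + J + i) x := by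
    intro i x
    unfold uu
    rw [one_mul, show m + n₀ + 1 + J + i = m + J + i + n₀ + 1 by ring]
  simp only [e2] at h2
  have h3 : ∀ h ∈ Wn r, ∀ j, j + r ≤ L →
        ‖(∫ x in p..q, e (ph (uu n₀ s) r h (m + J + j) x) * ((∏ i ∈ Finset.range L, g (uu n₀ s (m + J + i) x) : ℝ) : ℂ)) -
          zw H c r h * ((q - p : ℝ) : ℂ)‖ ≤ 3 * ε * (q - p) := by
    intro h hh j hj
    have h4 := h2 h hh j hj
    unfold ph zw
    simp only [add_assoc] at h4 ⊢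
    exact h4
  refine ⟨?_, h3⟩
  have h0 : (fun _ => 0 : ℕ → ℤ) ∈ Wn r := ⟨fun i => by simp, fun i _ => rfl⟩
  have h4 := h3 _ h0 0 (by omega)
  have e3 : ∀ x, e (ph (uu n₀ s) r (fun _ => 0) (m + J + 0) x) = 1 := by
    intro x
    unfold ph
    simp only [Int.cast_zero, zero_mul, Finset.sum_const_zero]
    exact e_nought
  have e4 : zw H c r (fun _ => 0) = 1 := by
    unfold zw
    simp only [cc_zero hc, Finset.prod_const_one]
  simp only [e3, e4, one_mul] at h4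
  rw [intervalIntegral.integral_ofReal, ← Complex.ofReal_sub, Complex.norm_real, Real.norm_eq_abs] at h4
  exact h4

end Pool.Agent.GJ
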